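import Pool.Agent.H948.HS.Stm

/-!
# Limits of the probabilities as the step length tends to zero (helper763)
-/

set_option autoImplicit false

namespace Pool.Agent.H763.HS

open MeasureTheory ProbabilityTheory Set Filter Metric
open scoped ENNReal NNReal Topology RealInnerProductSpace
open Pool.Agent.H948.HS

variable {m : ℕ}

/-- Sets which almost every point leaves eventually have small measure. -/
theorem small (A : ℝ → Set (Om m)) (hA : ∀ ε, MeasurableSet (A ε))
    (h : ∀ᵐ u ∂(Pm m), ∀ᶠ ε in 𝓝[>] (0 : ℝ), u ∉ A ε) (η : ℝ) (hη : 0 < η) :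
    ∀ᶠ ε in 𝓝[>] (0 : ℝ), (Pm m).real (A ε) ≤ η := by
  have h1 : Tendsto (fun ε => Pm m (A ε)) (𝓝[>] (0 : ℝ)) (𝓝 (Pm m ∅)) := by
    refine tendsto_measure_of_ae_tendsto_indicator_of_isFiniteMeasure (𝓝[>] (0 : ℝ))
      MeasurableSet.empty hA ?_
    filter_upwards [h] with u hu
    filter_upwards [hu] with ε hε
    simp [hε]
  rw [measure_empty] at h1
  have h2 : ∀ᶠ ε in 𝓝[>] (0 : ℝ), Pm m (A ε) < ENNReal.ofReal η :=
    h1.eventually (gt_mem_nhds (ENNReal.ofReal_pos.2 hη))
  filter_upwards [h2] with ε hε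
  have h3 := ENNReal.toReal_mono ENNReal.ofReal_ne_top hε.le
  rw [ENNReal.toReal_ofReal hη.le] at h3
  exact h3

theorem real_le_of_diff (A B : Set (Om m)) (η : ℝ) (h : (Pm m).real (A \ B) ≤ η) :
    (Pm m).real A ≤ (Pm m).real B + η := by
  have h1 : (Pm m).real A ≤ (Pm m).real (B ∪ A \ B) :=
    measureReal_mono (by intro x hx; by_cases hb : x ∈ B; exact Or.inl hb; exact Or.inr ⟨hx, hb⟩)
  have h2 := measureReal_union_le (μ := Pm m) B (A \ B)
  linarith

theorem s_hlim (hN : S_NULL) (hm : S_HM) (hp : S_HPT) : S_HLIM := by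
  intro m c a η n hm1 hc hc1 hη
  -- the distance between two times
  have hlim : ∀ (u : Om m) (i j : ℕ), i ≤ j →
      Tendsto (fun ε : ℝ => Dn ε (shift i u) (j - i)) (𝓝[>] 0) (𝓝 ‖S u i j‖) := by
    intro u i j hij
    have h1 := (hp m (shift i u) (j - i)).1
    rw [S_shift, add_zero, Nat.add_sub_of_le hij] at h1
    exact h1
  -- almost everywhere the norms are not equal to `c`
  have hae : ∀ᵐ u ∂(Pm m), ∀ i j : ℕ, i < j → ‖S u i j‖ ≠ c := by
    rw [ae_all_iff]
    intro i
    rw [ae_all_iff]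
    intro j
    by_cases hij : i < j
    · have h1 := hN m c i j hm1 hc hc1 hij
      have h2 : ∀ᵐ u ∂(Pm m), ¬ (‖S u i j‖ = c) := by
        rw [ae_iff]
        simpa using h1
      filter_upwards [h2] with u hu _
      exact hu
    · exact Filter.Eventually.of_forall fun u h => absurd h hij
  -- leaving `HSaw`
  have hsaw : ∀ u : Om m, (∀ i j : ℕ, i < j → ‖S u i j‖ ≠ c) → u ∉ Saw m c n →
      ∀ᶠ ε in 𝓝[>] (0 : ℝ), u ∉ HSaw m ε c n := by
    intro u hu hns
    unfold Saw at hns
    rw [mem_ofPred_eq] at hns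
    push Not at hns
    obtain ⟨i, j, hij, hj, hle⟩ := hns
    have hlt : ‖S u i j‖ < c := lt_of_le_of_ne hle (hu i j hij)
    filter_upwards [(hlim u i j hij.le).eventually (gt_mem_nhds hlt)] with ε hε hmem
    exact absurd (hmem i j hij hj) (not_lt.2 hε.le)
  have e1 : ∀ᶠ ε in 𝓝[>] (0 : ℝ), (Pm m).real (HSaw m ε c n \ Saw m c n) ≤ η := by
    refine small (fun ε => HSaw m ε c n \ Saw m c n)
      (fun ε => (hm m ε c a n).2.2.2.1.1.diff (meas_Saw c n)) ?_ η hη
    filter_upwards [hae] with u hu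
    by_cases hs : u ∈ Saw m c n
    · exact Filter.Eventually.of_forall fun ε h => h.2 hs
    · filter_upwards [hsaw u hu hs] with ε hε h
      exact hε h.1
  have e2 : ∀ᶠ ε in 𝓝[>] (0 : ℝ), (Pm m).real (HFar m ε c a n \ Far m c a n) ≤ η := by
    refine small (fun ε => HFar m ε c a n \ Far m c a n)
      (fun ε => (hm m ε c a n).2.2.2.2.2.1.diff (meas_Far c a n)) ?_ η hη
    filter_upwards [hae] with u hu
    by_cases hf : u ∈ Far m c a n
    · exact Filter.Eventually.of_forall fun ε h => h.2 hf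
    · by_cases hs : u ∈ Saw m c n
      · have hlt : ‖S u 0 n‖ < a := by
          by_contra hcon
          exact hf ⟨hs, not_lt.1 hcon⟩
        filter_upwards [((hp m u n).1).eventually (gt_mem_nhds hlt)] with ε hε h
        exact absurd h.1.2 (not_le.2 hε)
      · filter_upwards [hsaw u hu hs] with ε hε h
        exact hε h.1.1
  have e3 : ∀ᶠ ε in 𝓝[>] (0 : ℝ), (Pm m).real (Brd m c n \ HBr m ε c n) ≤ η := by
    refine small (fun ε => Brd m c n \ HBr m ε c n)
      (fun ε => (meas_Brd c n).diff (hm m ε c a n).2.2.2.2.1.1) ?_ η hη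
    refine Filter.Eventually.of_forall fun u => ?_
    by_cases hb : u ∈ Brd m c n
    · obtain ⟨h1, h2, h3⟩ := hb
      have f1 : ∀ᶠ ε in 𝓝[>] (0 : ℝ), ∀ p ∈ Finset.range (n + 1) ×ˢ Finset.range (n + 1),
          p.1 < p.2 → c < Dn ε (shift p.1 u) (p.2 - p.1) := by
        rw [Filter.eventually_all_finset]
        rintro ⟨i, j⟩ hp'
        rw [Finset.mem_product, Finset.mem_range, Finset.mem_range] at hp'
        by_cases hij : i < j
        · filter_upwards [(hlim u i j hij.le).eventually (lt_mem_nhds (h1 i j hij (by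
            have := hp'.2; simp only at this; omega)))] with ε hε _
          exact hε
        · exact Filter.Eventually.of_forall fun ε h => absurd h hij
      have f2 : ∀ᶠ ε in 𝓝[>] (0 : ℝ), ∀ j ∈ Finset.range (n + 1), 0 < j → c < Hn ε u j := by
        rw [Filter.eventually_all_finset]
        intro j hj
        rw [Finset.mem_range] at hj
        by_cases h0 : 0 < j
        · filter_upwards [((hp m u j).2).eventually (lt_mem_nhds (h2 j h0 (by omega)))] with ε hε _
          exact hε
        · exact Filter.Eventually.of_forall fun ε h => absurd h h0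
      have f3 : ∀ᶠ ε in 𝓝[>] (0 : ℝ), ∀ j ∈ Finset.range n, Hn ε u j < Hn ε u n := by
        rw [Filter.eventually_all_finset]
        intro j hj
        exact ((hp m u j).2).eventually_lt ((hp m u n).2) (h3 j (Finset.mem_range.1 hj))
      filter_upwards [f1, f2, f3] with ε g1 g2 g3 h
      refine h.2 ⟨fun i j hij hj => ?_, fun j h0 hj => ?_, fun j hj => ?_⟩
      · refine g1 (i, j) ?_ hij
        rw [Finset.mem_product, Finset.mem_range, Finset.mem_range]
        constructor
        · show i < n + 1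
          omega
        · show j < n + 1
          omega
      · exact g2 j (Finset.mem_range.2 (by omega)) h0
      · exact g3 j (Finset.mem_range.2 hj)
    · exact Filter.Eventually.of_forall fun ε h => hb h.1
  have hall := e1.and (e2.and e3)
  rw [Filter.Eventually, mem_nhdsGT_iff_exists_Ioo_subset] at hall
  obtain ⟨ε0, hε0, hsub⟩ := hall
  refine ⟨ε0, hε0, fun ε h0 h1 => ?_⟩
  obtain ⟨g1, g2, g3⟩ := hsub ⟨h0, h1⟩
  refine ⟨real_le_of_diff _ _ _ g1, real_le_of_diff _ _ _ g2, ?_⟩
  have h5 := real_le_of_diff _ _ _ g3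
  unfold B
  linarith

end Pool.Agent.H763.HS
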